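import Mathlib

/-!
# Bipartite graphs without dense spots
-/

namespace Pool.Agent.H692.BX

open Finset

/-- There are few elements of `E` in any product of two sets. -/
def Good {n : ℕ} (E : Finset (Fin n × Fin n)) (q ℓ : ℕ) : Prop :=
  ∀ A B : Finset (Fin n), (#(E.filter (fun p => p.1 ∈ A ∧ p.2 ∈ B)) : ℝ) ≤
    2 * (#A * #B) / q + 3 * (#A + #B) * ℓ

section Moment

variable {ι : Type} [Fintype ι] [DecidableEq ι] {q : ℕ}

theorem sum_prod (w : ι → Fin q → ℝ) :
    ∑ χ : ι → Fin q, ∏ i, w i (χ i) = ∏ i, ∑ c, w i c := by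
  rw [Finset.prod_univ_sum, Fintype.piFinset_univ]

/-- The number of elements of `S` with colour `z`. -/
def cnt (z : Fin q) (S : Finset ι) (χ : ι → Fin q) : ℕ := #(S.filter (fun i => χ i = z))

theorem moment (z : Fin q) (S : Finset ι) :
    ∑ χ : ι → Fin q, (2 : ℝ) ^ cnt z S χ =
      (q : ℝ) ^ Fintype.card ι * (1 + 1 / (q : ℝ)) ^ #S := by
  have hq : 0 < q := Fin.pos z
  have hq' : (q : ℝ) ≠ 0 := by positivity
  have h1 : ∀ χ : ι → Fin q, (2 : ℝ) ^ cnt z S χ =
      ∏ i, (if i ∈ S ∧ χ i = z then (2 : ℝ) else 1) := by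
    intro χ
    rw [Finset.prod_ite, Finset.prod_const, Finset.prod_const_one, mul_one]
    congr 1
    unfold cnt
    congr 1
    ext i
    simp
  simp_rw [h1]
  rw [sum_prod (fun i c => if i ∈ S ∧ c = z then (2 : ℝ) else 1)]
  have h2 : ∀ i : ι, ∑ c : Fin q, (if i ∈ S ∧ c = z then (2 : ℝ) else 1) =
      q * (if i ∈ S then (1 + 1 / (q : ℝ)) else 1) := by
    intro i
    by_cases hi : i ∈ S
    · simp only [hi, true_and, if_true]
      rw [Finset.sum_ite, Finset.sum_const, Finset.sum_const]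
      have e1 : (univ.filter (fun c : Fin q => c = z)) = {z} := by ext; simp
      have e2 : #(univ.filter (fun c : Fin q => ¬ c = z)) = q - 1 := by
        have : (univ.filter (fun c : Fin q => ¬ c = z)) = univ.erase z := by ext; simp
        rw [this, Finset.card_erase_of_mem (mem_univ z)]
        simp
      rw [e1, e2, Finset.card_singleton]
      simp only [one_smul, nsmul_eq_mul, mul_one]
      rw [Nat.cast_sub hq]
      field_simp
      push_cast
      ring
    · simp [hi]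
  simp_rw [h2]
  rw [Finset.prod_mul_distrib, Finset.prod_const, Finset.card_univ]
  congr 1
  rw [Finset.prod_ite, Finset.prod_const, Finset.prod_const_one, mul_one]
  congr 1
  simp

theorem mean (z : Fin q) :
    ∑ χ : ι → Fin q, (cnt z univ χ : ℝ) =
      (q : ℝ) ^ Fintype.card ι * (Fintype.card ι / q) := by
  have hq : 0 < q := Fin.pos z
  have hq' : (q : ℝ) ≠ 0 := by positivity
  have h1 : ∀ χ : ι → Fin q, (cnt z univ χ : ℝ) = ∑ j : ι, (if χ j = z then (1 : ℝ) else 0) := by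
    intro χ
    unfold cnt
    rw [Finset.sum_boole]
  simp_rw [h1]
  rw [Finset.sum_comm]
  have h2 : ∀ j : ι, ∑ χ : ι → Fin q, (if χ j = z then (1 : ℝ) else 0) =
      (q : ℝ) ^ Fintype.card ι / q := by
    intro j
    have h3 : ∀ χ : ι → Fin q, (if χ j = z then (1 : ℝ) else 0) =
        ∏ i, (if i = j then (if χ i = z then (1 : ℝ) else 0) else 1) := by
      intro χ
      rw [Finset.prod_ite_eq' univ j (fun i => if χ i = z then (1 : ℝ) else 0)]
      simp
    simp_rw [h3]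
    rw [sum_prod (fun i c => if i = j then (if c = z then (1 : ℝ) else 0) else 1)]
    have h4 : ∀ i : ι, ∑ c : Fin q, (if i = j then (if c = z then (1 : ℝ) else 0) else 1) =
        q * (if i = j then (1 / (q : ℝ)) else 1) := by
      intro i
      by_cases hi : i = j
      · simp [hi, hq']
      · simp [hi]
    simp_rw [h4]
    rw [Finset.prod_mul_distrib, Finset.prod_const, Finset.card_univ,
      Finset.prod_ite_eq' univ j (fun _ => 1 / (q : ℝ))]
    simp [div_eq_mul_inv]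
  simp_rw [h2]
  rw [Finset.sum_const, Finset.card_univ, nsmul_eq_mul]
  ring

theorem pow_le_two_rpow (hq : 0 < q) (s : ℕ) :
    (1 + 1 / (q : ℝ)) ^ s ≤ (2 : ℝ) ^ (2 * (s : ℝ) / q) := by
  have hq' : (0 : ℝ) < q := by exact_mod_cast hq
  have hpos : 0 < 1 + 1 / (q : ℝ) := by positivity
  rw [← Real.rpow_natCast, Real.rpow_def_of_pos hpos, Real.rpow_def_of_pos (by norm_num)]
  apply Real.exp_le_exp.mpr
  have h1 : Real.log (1 + 1 / (q : ℝ)) ≤ 1 / q := by
    have := Real.log_le_sub_one_of_pos hpos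
    linarith
  have h2 : (1 : ℝ) / 2 ≤ Real.log 2 := by
    have := Real.log_two_gt_d9
    linarith
  calc Real.log (1 + 1 / (q : ℝ)) * s ≤ (1 / q) * s := by gcongr
    _ = (1 / 2) * (2 * (s : ℝ) / q) := by ring
    _ ≤ Real.log 2 * (2 * (s : ℝ) / q) := by gcongr

theorem markov (z : Fin q) (S : Finset ι) (k : ℕ) :
    (#(univ.filter (fun χ : ι → Fin q => 2 * (#S : ℝ) / q + k < cnt z S χ)) : ℝ) ≤
      (q : ℝ) ^ Fintype.card ι * (1 / 2) ^ k := by
  have hq : 0 < q := Fin.pos z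
  set T : ℝ := 2 * (#S : ℝ) / q + k with hT
  have hm := moment z S
  have h1 : (#(univ.filter (fun χ : ι → Fin q => T < cnt z S χ)) : ℝ) * (2 : ℝ) ^ T ≤
      ∑ χ : ι → Fin q, (2 : ℝ) ^ cnt z S χ := by
    calc (#(univ.filter (fun χ : ι → Fin q => T < cnt z S χ)) : ℝ) * (2 : ℝ) ^ T
        = ∑ χ ∈ univ.filter (fun χ : ι → Fin q => T < cnt z S χ), (2 : ℝ) ^ T := by simp
      _ ≤ ∑ χ ∈ univ.filter (fun χ : ι → Fin q => T < cnt z S χ), (2 : ℝ) ^ cnt z S χ := by
          apply Finset.sum_le_sum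
          intro χ hχ
          rw [← Real.rpow_natCast]
          exact Real.rpow_le_rpow_of_exponent_le (by norm_num) (Finset.mem_filter.mp hχ).2.le
      _ ≤ _ := by
          apply Finset.sum_le_univ_sum_of_nonneg
          intro χ; positivity
  have h2 : (q : ℝ) ^ Fintype.card ι * (1 + 1 / (q : ℝ)) ^ #S ≤
      ((q : ℝ) ^ Fintype.card ι * (1 / 2) ^ k) * (2 : ℝ) ^ T := by
    rw [hT, Real.rpow_add (by norm_num), Real.rpow_natCast, mul_assoc]
    have h3 := pow_le_two_rpow hq #S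
    have h4 : ((1 : ℝ) / 2) ^ k * 2 ^ k = 1 := by rw [← mul_pow]; norm_num
    calc (q : ℝ) ^ Fintype.card ι * (1 + 1 / (q : ℝ)) ^ #S
        ≤ (q : ℝ) ^ Fintype.card ι * (2 : ℝ) ^ (2 * (#S : ℝ) / q) := by gcongr
      _ = (q : ℝ) ^ Fintype.card ι * ((2 : ℝ) ^ (2 * (#S : ℝ) / q) * (((1 : ℝ) / 2) ^ k * 2 ^ k)) := by
          rw [h4, mul_one]
      _ = _ := by ring
  have h3 : (0 : ℝ) < (2 : ℝ) ^ T := by positivity
  have h4 := h1.trans (hm.le.trans h2)
  exact le_of_mul_le_mul_right h4 h3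

end Moment

theorem one_add_pow_le {n : ℕ} {t : ℝ} (ht : 0 ≤ t) (h : n * t ≤ 1 / 2) :
    (1 + t) ^ n - 1 ≤ 2 * (n * t) := by
  have h1 : (1 + t) ^ n ≤ Real.exp (n * t) := by
    rw [mul_comm, Real.exp_mul, Real.rpow_natCast]
    gcongr
    rw [add_comm]
    exact Real.add_one_le_exp t
  have h2 : Real.exp (n * t) ≤ 1 / (1 - n * t) :=
    Real.exp_bound_div_one_sub_of_interval (by positivity) (by linarith)
  have h3 : 1 / (1 - n * t) ≤ 1 + 2 * (n * t) := by
    rw [div_le_iff₀ (by linarith)]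
    have : 0 ≤ n * t := by positivity
    nlinarith
  linarith

theorem exists_good {n q ℓ : ℕ} (hn : 0 < n) (hq : 0 < q) (hqn : q ≤ n) (hℓ : n < 2 ^ ℓ) :
    ∃ E : Finset (Fin n × Fin n), Good E q ℓ ∧ (n : ℝ) ^ 2 / (2 * q) ≤ #E := by
  classical
  have hℓ1 : 1 ≤ ℓ := by
    rcases Nat.eq_zero_or_pos ℓ with h | h
    · subst h; simp at hℓ; omega
    · exact h
  have hq' : (0 : ℝ) < q := by exact_mod_cast hq
  have hn' : (0 : ℝ) < n := by exact_mod_cast hn
  let z : Fin q := ⟨0, hq⟩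
  let ι := Fin n × Fin n
  set t : ℝ := (1 / 2) ^ (3 * ℓ) with ht
  have ht0 : 0 < t := by positivity
  set W : ℝ := (q : ℝ) ^ Fintype.card ι with hW
  have hW0 : 0 < W := by positivity
  -- the bad colourings for `A`, `B`
  let bad : Finset (Fin n) → Finset (Fin n) → Finset (ι → Fin q) := fun A B =>
    univ.filter (fun χ => 2 * (#(A ×ˢ B) : ℝ) / q + ((3 * ℓ * (#A + #B) : ℕ) : ℝ) <
      cnt z (A ×ˢ B) χ)
  have hbad : ∀ A B, (#(bad A B) : ℝ) ≤ W * (t ^ #A * t ^ #B) := by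
    intro A B
    refine (markov z (A ×ˢ B) (3 * ℓ * (#A + #B))).trans (le_of_eq ?_)
    rw [ht, ← pow_mul, ← pow_mul, ← pow_add]
    congr 2
    ring
  let NE : Finset (Finset (Fin n)) := univ.erase ∅
  let Bad : Finset (ι → Fin q) := NE.biUnion (fun A => NE.biUnion (fun B => bad A B))
  have hNE : ∑ A ∈ NE, t ^ #A = (1 + t) ^ n - 1 := by
    have h := Fintype.sum_pow_mul_eq_add_pow (Fin n) t 1
    simp only [one_pow, mul_one, Fintype.card_fin] at h
    have h2 := Finset.add_sum_erase univ (fun A : Finset (Fin n) => t ^ #A) (mem_univ ∅)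
    simp only [card_empty, pow_zero] at h2
    rw [add_comm 1 t, ← h, ← h2]
    ring
  have hnt : n * t ≤ (1 / 2) ^ (2 * ℓ) := by
    have h1 : (n : ℝ) ≤ 2 ^ ℓ := by exact_mod_cast hℓ.le
    calc n * t ≤ 2 ^ ℓ * t := by gcongr
      _ = (1 / 2) ^ (2 * ℓ) := by
          rw [ht, show 3 * ℓ = ℓ + 2 * ℓ by ring, pow_add, ← mul_assoc, ← mul_pow]
          norm_num
  have hquart : ((1 : ℝ) / 2) ^ (2 * ℓ) ≤ 1 / 4 := by
    calc ((1 : ℝ) / 2) ^ (2 * ℓ) ≤ (1 / 2) ^ 2 := by
          apply pow_le_pow_of_le_one (by norm_num) (by norm_num)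
          omega
      _ = 1 / 4 := by norm_num
  have hBad : (#Bad : ℝ) ≤ W * (4 * (1 / 2) ^ (4 * ℓ)) := by
    have h1 : (#Bad : ℝ) ≤ ∑ A ∈ NE, ∑ B ∈ NE, (#(bad A B) : ℝ) := by
      have : #Bad ≤ ∑ A ∈ NE, ∑ B ∈ NE, #(bad A B) := by
        refine (Finset.card_biUnion_le).trans ?_
        apply Finset.sum_le_sum
        intro A _
        exact Finset.card_biUnion_le
      exact_mod_cast this
    have h2 : ∑ A ∈ NE, ∑ B ∈ NE, (#(bad A B) : ℝ) ≤
        ∑ A ∈ NE, ∑ B ∈ NE, W * (t ^ #A * t ^ #B) :=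
      Finset.sum_le_sum (fun A _ => Finset.sum_le_sum (fun B _ => hbad A B))
    have h3 : ∑ A ∈ NE, ∑ B ∈ NE, W * (t ^ #A * t ^ #B) = W * ((1 + t) ^ n - 1) ^ 2 := by
      rw [← hNE, sq, Finset.sum_mul_sum, Finset.mul_sum]
      apply Finset.sum_congr rfl
      intro A _
      rw [Finset.mul_sum]
    have h4 : (1 + t) ^ n - 1 ≤ 2 * (1 / 2) ^ (2 * ℓ) := by
      refine (one_add_pow_le ht0.le ?_).trans ?_
      · linarith
      · linarith
    have h5 : 0 ≤ (1 + t) ^ n - 1 := by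
      have : (1 : ℝ) ≤ (1 + t) ^ n := one_le_pow₀ (by linarith)
      linarith
    calc (#Bad : ℝ) ≤ W * ((1 + t) ^ n - 1) ^ 2 := by rw [← h3]; exact h1.trans h2
      _ ≤ W * (2 * (1 / 2) ^ (2 * ℓ)) ^ 2 := by gcongr
      _ = W * (4 * (1 / 2) ^ (4 * ℓ)) := by
          rw [mul_pow, ← pow_mul, show 2 * ℓ * 2 = 4 * ℓ by ring]
          norm_num
  have hcard : Fintype.card ι = n ^ 2 := by simp [ι, sq]
  -- there is a good colouring with many elements of colour `z`
  obtain ⟨χ, hχ1, hχ2⟩ : ∃ χ : ι → Fin q, χ ∉ Bad ∧ (n : ℝ) ^ 2 / (2 * q) ≤ cnt z univ χ := by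
    by_contra hcon
    push Not at hcon
    have hmean := mean (ι := ι) z
    have h1 : ∑ χ : ι → Fin q, (cnt z univ χ : ℝ) ≤
        #Bad * (n : ℝ) ^ 2 + W * ((n : ℝ) ^ 2 / (2 * q)) := by
      have hle : ∀ χ : ι → Fin q, (cnt z univ χ : ℝ) ≤
          (if χ ∈ Bad then (n : ℝ) ^ 2 else 0) + (n : ℝ) ^ 2 / (2 * q) := by
        intro χ
        by_cases hχ : χ ∈ Bad
        · rw [if_pos hχ]
          have : cnt z univ χ ≤ n ^ 2 := by
            unfold cnt
            refine (Finset.card_filter_le _ _).trans ?_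
            rw [Finset.card_univ, hcard]
          have : (cnt z univ χ : ℝ) ≤ (n : ℝ) ^ 2 := by exact_mod_cast this
          have h0 : (0 : ℝ) ≤ (n : ℝ) ^ 2 / (2 * q) := by positivity
          linarith
        · rw [if_neg hχ, zero_add]
          exact (hcon χ hχ).le
      calc ∑ χ : ι → Fin q, (cnt z univ χ : ℝ)
          ≤ ∑ χ : ι → Fin q, ((if χ ∈ Bad then (n : ℝ) ^ 2 else 0) + (n : ℝ) ^ 2 / (2 * q)) :=
            Finset.sum_le_sum (fun χ _ => hle χ)
        _ = #Bad * (n : ℝ) ^ 2 + W * ((n : ℝ) ^ 2 / (2 * q)) := by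
            rw [Finset.sum_add_distrib]
            congr 1
            · rw [Finset.sum_ite_mem, Finset.univ_inter, Finset.sum_const, nsmul_eq_mul]
            · rw [Finset.sum_const, Finset.card_univ, nsmul_eq_mul, Fintype.card_fun,
                Fintype.card_fin, hW]
              push_cast
              rfl
    rw [hmean, ← hW, hcard] at h1
    push_cast at h1
    have h2 : W * ((n : ℝ) ^ 2 / q) ≤
        W * (n : ℝ) ^ 2 * (4 * (1 / 2) ^ (4 * ℓ)) + W * ((n : ℝ) ^ 2 / (2 * q)) := by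
      refine h1.trans ?_
      have : #Bad * (n : ℝ) ^ 2 ≤ W * (4 * (1 / 2) ^ (4 * ℓ)) * (n : ℝ) ^ 2 := by gcongr
      nlinarith
    have h3 : W * (n : ℝ) ^ 2 * (1 / (2 * q)) ≤ W * (n : ℝ) ^ 2 * (4 * (1 / 2) ^ (4 * ℓ)) := by
      have e1 : W * ((n : ℝ) ^ 2 / q) = W * (n : ℝ) ^ 2 * (1 / (2 * q)) +
          W * (n : ℝ) ^ 2 * (1 / (2 * q)) := by field_simp; ring
      have e2 : W * ((n : ℝ) ^ 2 / (2 * q)) = W * (n : ℝ) ^ 2 * (1 / (2 * q)) := by ring
      rw [e1, e2] at h2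
      linarith
    have h4 : 1 / (2 * (q : ℝ)) ≤ 4 * (1 / 2) ^ (4 * ℓ) :=
      le_of_mul_le_mul_left h3 (by positivity)
    have h5 : (1 : ℝ) / 2 ^ ℓ ≤ 1 / q := by
      apply one_div_le_one_div_of_le hq'
      have : q ≤ 2 ^ ℓ := hqn.trans hℓ.le
      exact_mod_cast this
    have h6 : ((1 : ℝ) / 2) ^ (4 * ℓ) ≤ (1 / 2) ^ ℓ * (1 / 8) := by
      rw [show 4 * ℓ = ℓ + 3 * ℓ by ring, pow_add]
      gcongr
      calc ((1 : ℝ) / 2) ^ (3 * ℓ) ≤ (1 / 2) ^ 3 := by
            apply pow_le_pow_of_le_one (by norm_num) (by norm_num)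
            omega
        _ = 1 / 8 := by norm_num
    -- equality would need more room: use that `n < 2 ^ ℓ` strictly
    have h7 : (1 : ℝ) / 2 ^ ℓ < 1 / q := by
      apply one_div_lt_one_div_of_lt hq'
      have : q < 2 ^ ℓ := lt_of_le_of_lt hqn hℓ
      exact_mod_cast this
    have h8 : ((1 : ℝ) / 2) ^ ℓ = 1 / 2 ^ ℓ := by rw [one_div_pow]
    have h9 : 1 / (2 * (q : ℝ)) = (1 / q) / 2 := by field_simp
    rw [h9] at h4
    rw [h8] at h6
    linarith
  refine ⟨univ.filter (fun i => χ i = z), ?_, hχ2⟩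
  intro A B
  by_cases hA : A = ∅
  · subst hA
    simp
    positivity
  by_cases hB : B = ∅
  · subst hB
    simp
    positivity
  have hnb : χ ∉ bad A B := by
    intro h
    apply hχ1
    simp only [Bad, Finset.mem_biUnion]
    exact ⟨A, by simp [NE, hA], B, by simp [NE, hB], h⟩
  simp only [bad, Finset.mem_filter, mem_univ, true_and, not_lt] at hnb
  have e1 : ((univ.filter (fun i => χ i = z)).filter (fun p : Fin n × Fin n => p.1 ∈ A ∧ p.2 ∈ B)) =
      (A ×ˢ B).filter (fun i => χ i = z) := by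
    ext p
    simp only [Finset.mem_filter, mem_univ, true_and, Finset.mem_product]
    tauto
  rw [e1]
  refine hnb.trans (le_of_eq ?_)
  rw [Finset.card_product]
  push_cast
  ring

end Pool.Agent.H692.BX
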