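import Pool.Agent.H692.BX.Defs
import Pool.Agent.H692.BX.Random

/-!
# Triangle detection by boxes: few paths in a box
-/

namespace Pool.Agent.H692.BX

open Finset

variable {n : ℕ}

/-- The number of neighbours of `y` in `A`. -/
def dg (E : Finset (Fin n × Fin n)) (A : Finset (Fin n)) (y : Fin n) : ℕ :=
  #(A.filter (fun x => (x, y) ∈ E))

theorem dg_le (E : Finset (Fin n × Fin n)) (A : Finset (Fin n)) (y : Fin n) : dg E A y ≤ #A :=
  Finset.card_filter_le _ _

theorem sum_dg (E : Finset (Fin n × Fin n)) (A B : Finset (Fin n)) :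
    ∑ y ∈ B, dg E A y = #(E.filter (fun p => p.1 ∈ A ∧ p.2 ∈ B)) := by
  have h := Finset.card_eq_sum_card_fiberwise (s := E.filter (fun p => p.1 ∈ A ∧ p.2 ∈ B))
    (t := B) (f := Prod.snd) (fun p hp => (Finset.mem_filter.mp hp).2.2)
  rw [h]
  apply Finset.sum_congr rfl
  intro y hy
  unfold dg
  apply Finset.card_bij (fun x _ => (x, y))
  · intro x hx
    simp only [Finset.mem_filter] at hx ⊢
    exact ⟨⟨hx.2, hx.1, hy⟩, trivial⟩
  · intro x _ x' _ h
    simpa using h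
  · rintro ⟨x, y'⟩ hp
    simp only [Finset.mem_filter] at hp
    obtain ⟨⟨hE, hA, -⟩, rfl⟩ := hp
    exact ⟨x, by simp [hE, hA], rfl⟩

/-- Few edges end at the vertices with many neighbours in `A`. -/
theorem heavy_le {E : Finset (Fin n × Fin n)} {q ℓ : ℕ} (hE : Good E q ℓ) (A B : Finset (Fin n)) :
    (∑ y ∈ B.filter (fun y => 4 * (#A : ℝ) / q + 6 * ℓ < dg E A y), (dg E A y : ℝ)) ≤
      6 * #A * ℓ := by
  set B₁ := B.filter (fun y => 4 * (#A : ℝ) / q + 6 * ℓ < dg E A y) with hB₁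
  have h1 := hE A B₁
  have h2 : (∑ y ∈ B₁, (dg E A y : ℝ)) = (#(E.filter (fun p => p.1 ∈ A ∧ p.2 ∈ B₁)) : ℝ) := by
    rw [← sum_dg]
    push_cast
    rfl
  have h3 : (#B₁ : ℝ) * (4 * (#A : ℝ) / q + 6 * ℓ) ≤ ∑ y ∈ B₁, (dg E A y : ℝ) := by
    calc (#B₁ : ℝ) * (4 * (#A : ℝ) / q + 6 * ℓ) = ∑ y ∈ B₁, (4 * (#A : ℝ) / q + 6 * ℓ) := by
          rw [Finset.sum_const, nsmul_eq_mul]
      _ ≤ _ := Finset.sum_le_sum (fun y hy => (Finset.mem_filter.mp hy).2.le)
  rw [← h2] at h1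
  have h4 : (#B₁ : ℝ) * (4 * (#A : ℝ) / q + 6 * ℓ) =
      2 * (2 * (#A * #B₁) / q + 3 * (#A + #B₁) * ℓ) - 6 * #A * ℓ := by ring
  rw [h4] at h3
  linarith

theorem core {E : Finset (Fin n × Fin n)} {q ℓ : ℕ} (hE : Good E q ℓ) (A B C : Finset (Fin n)) :
    (∑ y ∈ B, (dg E A y : ℝ) * dg E C y) ≤
      #B * ((4 * (#A : ℝ) / q + 6 * ℓ) * (4 * (#C : ℝ) / q + 6 * ℓ)) + 12 * #A * #C * ℓ := by
  set s : ℝ := 4 * (#A : ℝ) / q + 6 * ℓ with hs
  set t : ℝ := 4 * (#C : ℝ) / q + 6 * ℓ with ht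
  have hs0 : 0 ≤ s := by positivity
  have ht0 : 0 ≤ t := by positivity
  have h1 : ∀ y ∈ B, (dg E A y : ℝ) * dg E C y ≤
      s * t + (if s < dg E A y then #C * (dg E A y : ℝ) else 0) +
        (if t < dg E C y then #A * (dg E C y : ℝ) else 0) := by
    intro y _
    have hA : (dg E A y : ℝ) ≤ #A := by exact_mod_cast dg_le E A y
    have hC : (dg E C y : ℝ) ≤ #C := by exact_mod_cast dg_le E C y
    have hA0 : (0 : ℝ) ≤ dg E A y := by positivity
    have hC0 : (0 : ℝ) ≤ dg E C y := by positivity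
    have hst : 0 ≤ s * t := by positivity
    by_cases h : s < dg E A y
    · rw [if_pos h]
      have : (0 : ℝ) ≤ (if t < dg E C y then #A * (dg E C y : ℝ) else 0) := by
        split_ifs <;> positivity
      nlinarith
    · rw [if_neg h]
      by_cases h' : t < dg E C y
      · rw [if_pos h']
        nlinarith
      · rw [if_neg h']
        push Not at h h'
        have : (dg E A y : ℝ) * dg E C y ≤ s * t := by gcongr
        linarith
  calc (∑ y ∈ B, (dg E A y : ℝ) * dg E C y)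
      ≤ ∑ y ∈ B, (s * t + (if s < dg E A y then #C * (dg E A y : ℝ) else 0) +
        (if t < dg E C y then #A * (dg E C y : ℝ) else 0)) := Finset.sum_le_sum h1
    _ = #B * (s * t) + #C * (∑ y ∈ B.filter (fun y => s < dg E A y), (dg E A y : ℝ)) +
        #A * (∑ y ∈ B.filter (fun y => t < dg E C y), (dg E C y : ℝ)) := by
        rw [Finset.sum_add_distrib, Finset.sum_add_distrib, Finset.sum_const, nsmul_eq_mul,
          ← Finset.sum_filter, ← Finset.sum_filter, Finset.mul_sum, Finset.mul_sum]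
    _ ≤ #B * (s * t) + #C * (6 * #A * ℓ) + #A * (6 * #C * ℓ) := by
        gcongr
        · exact heavy_le hE A B
        · exact heavy_le hE C B
    _ = _ := by ring

/-- The bound in terms of the cost of a multiplication. -/
theorem core' {E : Finset (Fin n × Fin n)} {q ℓ : ℕ} (hE : Good E q ℓ) (hℓ : 1 ≤ ℓ) (hq : 0 < q)
    {ω : ℝ} (h3 : ω ≤ 3) (hqn : (n : ℝ) ^ ((3 - ω) / 2) ≤ q)
    (A B C : Finset (Fin n)) :
    (∑ y ∈ B, (dg E A y : ℝ) * dg E C y) ≤ 112 * (ℓ : ℝ) ^ 2 * mulCost ω #A #B #C := by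
  have hκ := mulCost_nonneg ω #A #B #C
  rcases Nat.eq_zero_or_pos #A with hA | hA
  · have : A = ∅ := Finset.card_eq_zero.mp hA
    subst this
    have : (∑ y ∈ B, (dg E ∅ y : ℝ) * dg E C y) = 0 := by
      apply Finset.sum_eq_zero
      intro y _
      simp [dg]
    rw [this]
    positivity
  rcases Nat.eq_zero_or_pos #B with hB | hB
  · have : B = ∅ := Finset.card_eq_zero.mp hB
    subst this
    rw [Finset.sum_empty]
    positivity
  rcases Nat.eq_zero_or_pos #C with hC | hC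
  · have : C = ∅ := Finset.card_eq_zero.mp hC
    subst this
    have : (∑ y ∈ B, (dg E A y : ℝ) * dg E ∅ y) = 0 := by
      apply Finset.sum_eq_zero
      intro y _
      simp [dg]
    rw [this]
    positivity
  have hcore := core hE A B C
  set a : ℝ := (#A : ℝ) with ha
  set b : ℝ := (#B : ℝ) with hb
  set c : ℝ := (#C : ℝ) with hc
  set κ : ℝ := mulCost ω #A #B #C with hκd
  have ha1 : 1 ≤ a := by rw [ha]; exact_mod_cast hA
  have hb1 : 1 ≤ b := by rw [hb]; exact_mod_cast hB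
  have hc1 : 1 ≤ c := by rw [hc]; exact_mod_cast hC
  have hℓ1 : (1 : ℝ) ≤ ℓ := by exact_mod_cast hℓ
  have hq0 : (0 : ℝ) < q := by exact_mod_cast hq
  have hq1 : (1 : ℝ) ≤ q := by exact_mod_cast hq
  have hab : a * b ≤ κ := le_max_of_le_right (le_max_left _ _)
  have hbc : b * c ≤ κ := le_max_of_le_right (le_max_of_le_right (le_max_left _ _))
  have hac : a * c ≤ κ := le_max_of_le_right (le_max_of_le_right (le_max_right _ _))
  have habc : (a * b * c) ^ (ω / 3) ≤ κ := le_max_left _ _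
  have hn : (1 : ℝ) ≤ n := by
    have : #A ≤ n := by simpa using Finset.card_le_univ A
    exact_mod_cast hA.trans_le this
  -- the main term
  have hmain : a * b * c / (q : ℝ) ^ 2 ≤ κ := by
    refine le_trans ?_ habc
    have hpos : 0 < a * b * c := by positivity
    have haN : a ≤ n := by
      have : #A ≤ n := by simpa using Finset.card_le_univ A
      rw [ha]
      exact_mod_cast this
    have hbN : b ≤ n := by
      have : #B ≤ n := by simpa using Finset.card_le_univ B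
      rw [hb]
      exact_mod_cast this
    have hcN : c ≤ n := by
      have : #C ≤ n := by simpa using Finset.card_le_univ C
      rw [hc]
      exact_mod_cast this
    have hle : a * b * c ≤ (n : ℝ) ^ (3 : ℝ) := by
      rw [show (3 : ℝ) = ((3 : ℕ) : ℝ) by norm_num, Real.rpow_natCast]
      calc a * b * c ≤ n * n * n := by gcongr
        _ = (n : ℝ) ^ 3 := by ring
    have h1 : (a * b * c) ^ ((3 - ω) / 3) ≤ (q : ℝ) ^ 2 := by
      calc (a * b * c) ^ ((3 - ω) / 3) ≤ ((n : ℝ) ^ (3 : ℝ)) ^ ((3 - ω) / 3) := by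
            apply Real.rpow_le_rpow hpos.le hle
            apply div_nonneg <;> linarith
        _ = ((n : ℝ) ^ ((3 - ω) / 2)) ^ 2 := by
            rw [← Real.rpow_mul (by positivity), ← Real.rpow_natCast, ← Real.rpow_mul (by positivity)]
            congr 1
            push_cast
            ring
        _ ≤ (q : ℝ) ^ 2 := by gcongr
    rw [div_le_iff₀ (by positivity)]
    calc a * b * c = (a * b * c) ^ (ω / 3) * (a * b * c) ^ ((3 - ω) / 3) := by
          rw [← Real.rpow_add hpos]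
          have : ω / 3 + (3 - ω) / 3 = 1 := by ring
          rw [this, Real.rpow_one]
      _ ≤ (a * b * c) ^ (ω / 3) * (q : ℝ) ^ 2 := by gcongr
  have hexp : b * ((4 * a / q + 6 * ℓ) * (4 * c / q + 6 * ℓ)) + 12 * a * c * ℓ =
      16 * (a * b * c / (q : ℝ) ^ 2) + 24 * ℓ * (a * b / q) + 24 * ℓ * (b * c / q) +
        36 * (ℓ : ℝ) ^ 2 * b + 12 * ℓ * (a * c) := by
    field_simp
    ring
  have h5 : a * b / q ≤ κ := by
    refine le_trans ?_ hab
    exact div_le_self (by positivity) hq1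
  have h6 : b * c / q ≤ κ := by
    refine le_trans ?_ hbc
    exact div_le_self (by positivity) hq1
  have h7 : b ≤ κ := by nlinarith
  have hll : (ℓ : ℝ) ≤ (ℓ : ℝ) ^ 2 := by nlinarith
  have hl1 : (1 : ℝ) ≤ (ℓ : ℝ) ^ 2 := by nlinarith
  calc (∑ y ∈ B, (dg E A y : ℝ) * dg E C y)
      ≤ b * ((4 * a / q + 6 * ℓ) * (4 * c / q + 6 * ℓ)) + 12 * a * c * ℓ := hcore
    _ = 16 * (a * b * c / (q : ℝ) ^ 2) + 24 * ℓ * (a * b / q) + 24 * ℓ * (b * c / q) +
        36 * (ℓ : ℝ) ^ 2 * b + 12 * ℓ * (a * c) := hexp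
    _ ≤ 16 * κ + 24 * ℓ * κ + 24 * ℓ * κ + 36 * (ℓ : ℝ) ^ 2 * κ + 12 * ℓ * κ := by gcongr
    _ = (16 * 1 + 60 * ℓ + 36 * (ℓ : ℝ) ^ 2) * κ := by ring
    _ ≤ (16 * (ℓ : ℝ) ^ 2 + 60 * (ℓ : ℝ) ^ 2 + 36 * (ℓ : ℝ) ^ 2) * κ := by gcongr
    _ = 112 * (ℓ : ℝ) ^ 2 * κ := by ring

end Pool.Agent.H692.BX
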