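import Mathlib

/-!
# Triangle detection by boxes: definitions

A box is a triple of sets of vertices, for the first, the middle and the last vertices of paths
with two edges.
-/

namespace Pool.Agent.H692.BX

open Finset

/-- A box: a set of first vertices, a set of middle vertices and a set of last vertices. -/
structure Box (V : Type) where
  /-- the first vertices -/
  A : Finset V
  /-- the middle vertices -/
  B : Finset V
  /-- the last vertices -/
  C : Finset V

/-- `mulCost ω a b c = max ((a b c) ^ (ω / 3), a b, b c, a c)`. -/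
noncomputable def mulCost (ω : ℝ) (a b c : ℕ) : ℝ :=
  max (((a : ℝ) * b * c) ^ (ω / 3)) (max ((a : ℝ) * b) (max ((b : ℝ) * c) ((a : ℝ) * c)))

variable {V : Type}

/-- The cost of multiplying the two matrices of a box. -/
noncomputable def Box.cost (ω : ℝ) (b : Box V) : ℝ := mulCost ω #b.A #b.B #b.C

/-- The paths `x - y - z` of the graph `G` with `x ≠ z` in the box. -/
def Box.paths (G : SimpleGraph V) (b : Box V) : Set (V × V × V) :=
  {p | (G.Adj p.1 p.2.1 ∧ G.Adj p.2.1 p.2.2 ∧ p.1 ≠ p.2.2) ∧
    p.1 ∈ b.A ∧ p.2.1 ∈ b.B ∧ p.2.2 ∈ b.C}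

/-- The boxes `b i` cover all the paths `x - y - z` of the graph `G` with `x ≠ z` whose middle
vertex `y` comes before `x` and `z` in the order given by `r`. -/
def Covers (G : SimpleGraph V) (r : V → ℕ) {ι : Type} (b : ι → Box V) : Prop :=
  ∀ x y z : V, G.Adj x y → G.Adj y z → x ≠ z → r y < r x → r y < r z →
    ∃ i, x ∈ (b i).A ∧ y ∈ (b i).B ∧ z ∈ (b i).C

theorem mulCost_nonneg (ω : ℝ) (a b c : ℕ) : 0 ≤ mulCost ω a b c :=
  le_max_of_le_left (by positivity)

theorem mulCost_mono {ω : ℝ} (h : 0 ≤ ω) {a b c a' b' c' : ℕ} (ha : a ≤ a') (hb : b ≤ b')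
    (hc : c ≤ c') : mulCost ω a b c ≤ mulCost ω a' b' c' := by
  have ha' : (a : ℝ) ≤ a' := by exact_mod_cast ha
  have hb' : (b : ℝ) ≤ b' := by exact_mod_cast hb
  have hc' : (c : ℝ) ≤ c' := by exact_mod_cast hc
  unfold mulCost
  refine max_le_max ?_ (max_le_max ?_ (max_le_max ?_ ?_))
  · apply Real.rpow_le_rpow (by positivity) _ (by positivity)
    gcongr
  · gcongr
  · gcongr
  · gcongr

end Pool.Agent.H692.BX
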