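import Pool.Agent.H692.BX.Lower

/-!
# Triangle detection by boxes: the choice of the parameters
-/

namespace Pool.Agent.H692.BX

open Finset

/-- The lower bound for the number of paths and for the numbers of paths in boxes. -/
theorem exists_graph {ω : ℝ} (h2 : 2 ≤ ω) (h3 : ω ≤ 3) {m : ℕ} (hm : 2 ^ 16 ≤ m) :
    ∃ (n : ℕ) (E : Finset (Fin n × Fin n)), #E ≤ m ∧
      (∀ r : Fin n ⊕ Fin n → ℕ, Function.Injective r →
        (m : ℝ) ^ (2 * ω / (ω + 1)) / 512 ≤ (lowPaths (bip E) r).ncard) ∧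
      ∀ b : Box (Fin n ⊕ Fin n), ((b.paths (bip E)).ncard : ℝ) ≤
        224 * Real.logb 2 m ^ 2 * b.cost ω := by
  have hω1 : 0 < ω + 1 := by linarith
  have hm' : ((2 : ℝ)) ^ (16 : ℕ) ≤ (m : ℝ) := by exact_mod_cast hm
  have hm0 : (0 : ℝ) < m := by
    have : (0 : ℝ) < 2 ^ (16 : ℕ) := by positivity
    linarith
  have hm1 : (1 : ℝ) ≤ m := by
    have : (1 : ℝ) ≤ 2 ^ (16 : ℕ) := by norm_num
    linarith
  set x : ℝ := (m : ℝ) ^ (2 / (ω + 1)) with hx
  have hx256 : 256 ≤ x := by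
    calc (256 : ℝ) = ((2 : ℝ) ^ (16 : ℕ)) ^ ((1 : ℝ) / 2) := by
          rw [← Real.rpow_natCast, ← Real.rpow_mul (by norm_num)]
          rw [show ((16 : ℕ) : ℝ) * (1 / 2) = ((8 : ℕ) : ℝ) by norm_num, Real.rpow_natCast]
          norm_num
      _ ≤ (m : ℝ) ^ ((1 : ℝ) / 2) := by
          apply Real.rpow_le_rpow (by positivity) hm' (by norm_num)
      _ ≤ x := by
          apply Real.rpow_le_rpow_of_exponent_le hm1
          rw [div_le_div_iff₀ (by norm_num) hω1]
          linarith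
  set n : ℕ := ⌊x⌋₊ with hn
  have hnx : (n : ℝ) ≤ x := Nat.floor_le (by linarith)
  have hxn : x < n + 1 := Nat.lt_floor_add_one x
  have hn256 : 256 ≤ n := by
    rw [hn]
    exact Nat.le_floor (by exact_mod_cast hx256)
  have hn256' : (256 : ℝ) ≤ n := by exact_mod_cast hn256
  have hn0 : (0 : ℝ) < n := by linarith
  have hn1 : (1 : ℝ) ≤ n := by linarith
  have hx2n : x ≤ 2 * n := by linarith
  set y : ℝ := (n : ℝ) ^ ((3 - ω) / 2) with hy
  have hy1 : 1 ≤ y := Real.one_le_rpow hn1 (by linarith)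
  set s : ℝ := (n : ℝ) ^ ((1 : ℝ) / 2) with hs
  have hys : y ≤ s := Real.rpow_le_rpow_of_exponent_le hn1 (by linarith)
  have hs2 : s * s = n := by
    rw [hs, ← Real.rpow_add hn0]
    norm_num
  have hs16 : 16 ≤ s := by
    have hs0 : 0 ≤ s := by positivity
    nlinarith
  set q : ℕ := ⌈y⌉₊ with hq
  have hyq : y ≤ q := Nat.le_ceil y
  have hqy : (q : ℝ) < y + 1 := Nat.ceil_lt_add_one (by linarith)
  have hq0 : 0 < q := Nat.ceil_pos.mpr (by linarith)
  have hq0' : (0 : ℝ) < q := by exact_mod_cast hq0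
  have hqn : q ≤ n := by
    have : (q : ℝ) ≤ n := by nlinarith
    exact_mod_cast this
  have hnl : n < 2 ^ (Nat.log 2 n + 1) := Nat.lt_pow_succ_log_self (by norm_num) n
  obtain ⟨E₀, hgood, hbig⟩ := exists_good (by omega) hq0 hqn hnl
  set e : ℕ := ⌈(n : ℝ) ^ 2 / (2 * q)⌉₊ with he
  have heE : e ≤ #E₀ := Nat.ceil_le.mpr hbig
  obtain ⟨E, hEsub, hEcard⟩ := Finset.exists_subset_card_eq heE
  have hgoodE := hgood.mono hEsub
  have hege : (n : ℝ) ^ 2 / (2 * q) ≤ e := Nat.le_ceil _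
  have hele : (e : ℝ) < (n : ℝ) ^ 2 / (2 * q) + 1 := Nat.ceil_lt_add_one (by positivity)
  have hnpow : (n : ℝ) ^ 2 / y = (n : ℝ) ^ ((1 + ω) / 2) := by
    rw [hy, ← Real.rpow_natCast, ← Real.rpow_sub hn0]
    congr 1
    push_cast
    ring
  have hnpow_le : (n : ℝ) ^ ((1 + ω) / 2) ≤ m := by
    calc (n : ℝ) ^ ((1 + ω) / 2) ≤ x ^ ((1 + ω) / 2) := by
          apply Real.rpow_le_rpow (by positivity) hnx (by linarith)
      _ = m := by
          rw [hx, ← Real.rpow_mul hm0.le]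
          have : 2 / (ω + 1) * ((1 + ω) / 2) = 1 := by field_simp; ring
          rw [this, Real.rpow_one]
  refine ⟨n, E, ?_, ?_, ?_⟩
  · -- number of edges
    rw [hEcard]
    have h1 : (n : ℝ) ^ 2 / (2 * q) ≤ m / 2 := by
      calc (n : ℝ) ^ 2 / (2 * q) ≤ (n : ℝ) ^ 2 / (2 * y) := by gcongr
        _ = ((n : ℝ) ^ 2 / y) / 2 := by field_simp
        _ ≤ m / 2 := by rw [hnpow]; gcongr
    have h2 : (e : ℝ) < m + 1 := by
      have : (m : ℝ) / 2 ≤ m := by linarith
      linarith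
    have h3 : e < m + 1 := by exact_mod_cast h2
    omega
  · -- number of paths
    intro r hr
    have hS : (e : ℝ) ≤ ∑ y, (#(later (bip E) r y) : ℝ) := by
      have := later_sum_ge E r hr
      rw [hEcard] at this
      exact_mod_cast this
    have he4 : 4 * (n : ℝ) ≤ e := by
      refine le_trans ?_ hege
      rw [le_div_iff₀ (by positivity)]
      have h1 : (q : ℝ) ≤ s + 1 := by linarith
      calc 4 * (n : ℝ) * (2 * q) ≤ 4 * (n : ℝ) * (2 * (s + 1)) := by gcongr
        _ = (n : ℝ) * (8 * (s + 1)) := by ring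
        _ ≤ (n : ℝ) * (s * s) := by
            have h8 : 8 * (s + 1) ≤ s * s := by nlinarith
            exact mul_le_mul_of_nonneg_left h8 hn0.le
        _ = (n : ℝ) ^ 2 := by rw [hs2]; ring
    have hV : (Fintype.card (Fin n ⊕ Fin n) : ℝ) = 2 * n := by
      simp
      ring
    have hP := lowPaths_ge (bip E) r hn0 hV he4 hS
    refine le_trans ?_ hP
    -- `e ≥ n ^ ((1 + ω) / 2) / 4`
    have h1 : (n : ℝ) ^ ((1 + ω) / 2) / 4 ≤ e := by
      refine le_trans ?_ hege
      rw [← hnpow]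
      calc (n : ℝ) ^ 2 / y / 4 = (n : ℝ) ^ 2 / (2 * (2 * y)) := by field_simp; ring
        _ ≤ (n : ℝ) ^ 2 / (2 * q) := by
            have : (q : ℝ) ≤ 2 * y := by linarith
            gcongr
    have h2 : (n : ℝ) ^ ω / 64 ≤ (e : ℝ) ^ 2 / (4 * n) := by
      rw [div_le_div_iff₀ (by norm_num) (by positivity)]
      have h3 : ((n : ℝ) ^ ((1 + ω) / 2) / 4) ^ 2 ≤ (e : ℝ) ^ 2 := by gcongr
      have h4 : ((n : ℝ) ^ ((1 + ω) / 2)) ^ 2 = (n : ℝ) ^ ω * n := by
        rw [← Real.rpow_natCast, ← Real.rpow_mul hn0.le]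
        nth_rewrite 3 [← Real.rpow_one (n : ℝ)]
        rw [← Real.rpow_add hn0]
        congr 1
        push_cast
        ring
      rw [div_pow, h4] at h3
      linarith
    refine le_trans ?_ h2
    have h5 : (m : ℝ) ^ (2 * ω / (ω + 1)) = x ^ ω := by
      rw [hx, ← Real.rpow_mul hm0.le]
      congr 1
      ring
    rw [h5]
    have h6 : x ^ ω ≤ 8 * (n : ℝ) ^ ω := by
      calc x ^ ω ≤ (2 * n) ^ ω := Real.rpow_le_rpow (by linarith) hx2n (by linarith)
        _ = 2 ^ ω * (n : ℝ) ^ ω := Real.mul_rpow (by norm_num) hn0.le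
        _ ≤ 8 * (n : ℝ) ^ ω := by
            gcongr
            calc (2 : ℝ) ^ ω ≤ 2 ^ (3 : ℝ) :=
                  Real.rpow_le_rpow_of_exponent_le (by norm_num) h3
              _ = 8 := by
                  rw [show (3 : ℝ) = ((3 : ℕ) : ℝ) by norm_num, Real.rpow_natCast]
                  norm_num
    linarith
  · -- paths in boxes
    intro b
    have h := paths_le hgoodE (ℓ := Nat.log 2 n + 1) (by omega) hq0 (by linarith : (0 : ℝ) ≤ ω) h3
      hyq b
    refine h.trans ?_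
    have hcost : 0 ≤ b.cost ω := mulCost_nonneg _ _ _ _
    have hlog : ((Nat.log 2 n + 1 : ℕ) : ℝ) ≤ Real.logb 2 m := by
      have h1 : ((Nat.log 2 n : ℕ) : ℝ) ≤ Real.logb 2 n := Real.natLog_le_logb n 2
      have h2' : Real.logb 2 n ≤ 2 / 3 * Real.logb 2 m := by
        calc Real.logb 2 n ≤ Real.logb 2 x :=
              Real.logb_le_logb_of_le (by norm_num) hn0 hnx
          _ = 2 / (ω + 1) * Real.logb 2 m := by
              rw [hx, Real.logb_rpow_eq_mul_logb_of_pos hm0]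
          _ ≤ 2 / 3 * Real.logb 2 m := by
              have : 0 ≤ Real.logb 2 m := Real.logb_nonneg (by norm_num) hm1
              gcongr
              linarith
      have h3' : (16 : ℝ) ≤ Real.logb 2 m := by
        rw [Real.le_logb_iff_rpow_le (by norm_num) hm0]
        rw [show (16 : ℝ) = ((16 : ℕ) : ℝ) by norm_num, Real.rpow_natCast]
        exact hm'
      push_cast
      linarith
    gcongr

end Pool.Agent.H692.BX
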