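import Pool.Agent.H692.BX.Core

/-!
# Triangle detection by boxes: the lower bound
-/

namespace Pool.Agent.H692.BX

open Finset

section Bip

variable {n : ℕ}

/-- The bipartite graph with the edges `(inl x, inr y)`, `(x, y) ∈ E`. -/
def bip (E : Finset (Fin n × Fin n)) : SimpleGraph (Fin n ⊕ Fin n) where
  Adj u v := match u, v with
    | .inl x, .inr y => (x, y) ∈ E
    | .inr y, .inl x => (x, y) ∈ E
    | _, _ => False
  symm := ⟨by
    intro u v h
    rcases u with x | x <;> rcases v with y | y <;> simp_all⟩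
  loopless := ⟨by
    intro u h
    rcases u with x | x <;> exact h⟩

theorem bip_lr {E : Finset (Fin n × Fin n)} {x y : Fin n} :
    (bip E).Adj (.inl x) (.inr y) ↔ (x, y) ∈ E := Iff.rfl

theorem bip_rl {E : Finset (Fin n × Fin n)} {x y : Fin n} :
    (bip E).Adj (.inr y) (.inl x) ↔ (x, y) ∈ E := Iff.rfl

theorem bip_ll {E : Finset (Fin n × Fin n)} {x y : Fin n} :
    ¬ (bip E).Adj (.inl x) (.inl y) := id

theorem bip_rr {E : Finset (Fin n × Fin n)} {x y : Fin n} :
    ¬ (bip E).Adj (.inr x) (.inr y) := id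

theorem card_edgeSet_le (E : Finset (Fin n × Fin n)) : Nat.card (bip E).edgeSet ≤ #E := by
  have hsurj : Function.Surjective (fun p : E => (⟨s(.inl p.1.1, .inr p.1.2),
      (SimpleGraph.mem_edgeSet _).mpr (bip_lr.mpr p.2)⟩ : (bip E).edgeSet)) := by
    rintro ⟨e, he⟩
    induction e using Sym2.ind with
    | _ u v =>
      rw [SimpleGraph.mem_edgeSet] at he
      rcases u with x | x <;> rcases v with y | y
      · exact absurd he bip_ll
      · exact ⟨⟨(x, y), he⟩, rfl⟩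
      · exact ⟨⟨(y, x), he⟩, Subtype.ext Sym2.eq_swap⟩
      · exact absurd he bip_rr
  have := Nat.card_le_card_of_surjective _ hsurj
  simpa using this

/-- The transposed set. -/
def tr (E : Finset (Fin n × Fin n)) : Finset (Fin n × Fin n) :=
  E.map (Equiv.prodComm _ _).toEmbedding

theorem mem_tr {E : Finset (Fin n × Fin n)} {x y : Fin n} : (x, y) ∈ tr E ↔ (y, x) ∈ E := by
  simp [tr]

theorem Good.tr {E : Finset (Fin n × Fin n)} {q ℓ : ℕ} (h : Good E q ℓ) :
    Good (tr E) q ℓ := by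
  intro A B
  have h1 := h B A
  have h2 : #((BX.tr E).filter (fun p => p.1 ∈ A ∧ p.2 ∈ B)) =
      #(E.filter (fun p => p.1 ∈ B ∧ p.2 ∈ A)) := by
    symm
    apply Finset.card_bij (fun p _ => (p.2, p.1))
    · rintro ⟨x, y⟩ hp
      simp only [Finset.mem_filter, mem_tr] at hp ⊢
      tauto
    · rintro ⟨x, y⟩ _ ⟨x', y'⟩ _ h
      simp only [Prod.mk.injEq] at h ⊢
      tauto
    · rintro ⟨x, y⟩ hp
      simp only [Finset.mem_filter, mem_tr] at hp
      exact ⟨(y, x), by simp only [Finset.mem_filter]; tauto, rfl⟩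
  rw [h2]
  refine h1.trans (le_of_eq ?_)
  ring

theorem Good.mono {E E' : Finset (Fin n × Fin n)} {q ℓ : ℕ} (h : Good E q ℓ) (hE : E' ⊆ E) :
    Good E' q ℓ := by
  intro A B
  refine le_trans ?_ (h A B)
  exact_mod_cast Finset.card_le_card (Finset.filter_subset_filter _ hE)

/-- The left vertices of a set. -/
def lft (A : Finset (Fin n ⊕ Fin n)) : Finset (Fin n) := univ.filter (fun x => Sum.inl x ∈ A)

/-- The right vertices of a set. -/
def rgt (A : Finset (Fin n ⊕ Fin n)) : Finset (Fin n) := univ.filter (fun x => Sum.inr x ∈ A)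

theorem card_lft (A : Finset (Fin n ⊕ Fin n)) : #(lft A) ≤ #A := by
  apply Finset.card_le_card_of_injOn Sum.inl
  · intro x hx
    simpa [lft] using hx
  · intro x _ y _ h
    exact Sum.inl_injective h

theorem card_rgt (A : Finset (Fin n ⊕ Fin n)) : #(rgt A) ≤ #A := by
  apply Finset.card_le_card_of_injOn Sum.inr
  · intro x hx
    simpa [rgt] using hx
  · intro x _ y _ h
    exact Sum.inr_injective h

theorem paths_le_sum (E : Finset (Fin n × Fin n)) (b : Box (Fin n ⊕ Fin n)) :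
    (b.paths (bip E)).ncard ≤ (∑ y ∈ rgt b.B, dg E (lft b.A) y * dg E (lft b.C) y) +
      ∑ y ∈ lft b.B, dg (tr E) (rgt b.A) y * dg (tr E) (rgt b.C) y := by
  classical
  let F₁ : Finset (Σ _ : Fin n, Fin n × Fin n) := (rgt b.B).sigma (fun y =>
    ((lft b.A).filter (fun x => (x, y) ∈ E)) ×ˢ ((lft b.C).filter (fun x => (x, y) ∈ E)))
  let F₂ : Finset (Σ _ : Fin n, Fin n × Fin n) := (lft b.B).sigma (fun y =>
    ((rgt b.A).filter (fun x => (x, y) ∈ tr E)) ×ˢ ((rgt b.C).filter (fun x => (x, y) ∈ tr E)))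
  let g₁ : (Σ _ : Fin n, Fin n × Fin n) → (Fin n ⊕ Fin n) × (Fin n ⊕ Fin n) × (Fin n ⊕ Fin n) :=
    fun s => (.inl s.2.1, .inr s.1, .inl s.2.2)
  let g₂ : (Σ _ : Fin n, Fin n × Fin n) → (Fin n ⊕ Fin n) × (Fin n ⊕ Fin n) × (Fin n ⊕ Fin n) :=
    fun s => (.inr s.2.1, .inl s.1, .inr s.2.2)
  have hsub : b.paths (bip E) ⊆ ((F₁.image g₁ ∪ F₂.image g₂ : Finset _) : Set _) := by
    rintro ⟨x, y, z⟩ ⟨⟨hxy, hyz, -⟩, hA, hB, hC⟩
    simp only [Finset.coe_union, Finset.coe_image, Set.mem_union, Set.mem_image, Finset.mem_coe]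
    rcases y with y | y
    · right
      rcases x with x | x
      · exact absurd hxy bip_ll
      rcases z with z | z
      · exact absurd hyz bip_ll
      refine ⟨⟨y, (x, z)⟩, ?_, rfl⟩
      simp only [F₂, Finset.mem_sigma, Finset.mem_product, Finset.mem_filter, lft, rgt, mem_univ,
        true_and, mem_tr]
      exact ⟨hB, ⟨hA, hxy⟩, ⟨hC, hyz⟩⟩
    · left
      rcases x with x | x
      · rcases z with z | z
        · refine ⟨⟨y, (x, z)⟩, ?_, rfl⟩
          simp only [F₁, Finset.mem_sigma, Finset.mem_product, Finset.mem_filter, lft, rgt,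
            mem_univ, true_and]
          exact ⟨hB, ⟨hA, hxy⟩, ⟨hC, hyz⟩⟩
        · exact absurd hyz bip_rr
      · exact absurd hxy bip_rr
  have h1 : (b.paths (bip E)).ncard ≤ #(F₁.image g₁ ∪ F₂.image g₂) := by
    rw [← Set.ncard_coe_finset]
    exact Set.ncard_le_ncard hsub (Finset.finite_toSet _)
  have h2 : #(F₁.image g₁ ∪ F₂.image g₂) ≤ #F₁ + #F₂ :=
    (Finset.card_union_le _ _).trans (add_le_add Finset.card_image_le Finset.card_image_le)
  have h3 : #F₁ = ∑ y ∈ rgt b.B, dg E (lft b.A) y * dg E (lft b.C) y := by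
    rw [Finset.card_sigma]
    apply Finset.sum_congr rfl
    intro y _
    rw [Finset.card_product]
    rfl
  have h4 : #F₂ = ∑ y ∈ lft b.B, dg (tr E) (rgt b.A) y * dg (tr E) (rgt b.C) y := by
    rw [Finset.card_sigma]
    apply Finset.sum_congr rfl
    intro y _
    rw [Finset.card_product]
    rfl
  rw [← h3, ← h4]
  exact h1.trans h2

theorem paths_le {E : Finset (Fin n × Fin n)} {q ℓ : ℕ} (hE : Good E q ℓ) (hℓ : 1 ≤ ℓ) (hq : 0 < q)
    {ω : ℝ} (h0 : 0 ≤ ω) (h3 : ω ≤ 3) (hqn : (n : ℝ) ^ ((3 - ω) / 2) ≤ q)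
    (b : Box (Fin n ⊕ Fin n)) :
    ((b.paths (bip E)).ncard : ℝ) ≤ 224 * (ℓ : ℝ) ^ 2 * b.cost ω := by
  have h := paths_le_sum E b
  have h1 := core' hE hℓ hq h3 hqn (lft b.A) (rgt b.B) (lft b.C)
  have h2 := core' hE.tr hℓ hq h3 hqn (rgt b.A) (lft b.B) (rgt b.C)
  have m1 : mulCost ω #(lft b.A) #(rgt b.B) #(lft b.C) ≤ b.cost ω :=
    mulCost_mono h0 (card_lft _) (card_rgt _) (card_lft _)
  have m2 : mulCost ω #(rgt b.A) #(lft b.B) #(rgt b.C) ≤ b.cost ω :=
    mulCost_mono h0 (card_rgt _) (card_lft _) (card_rgt _)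
  have h' : ((b.paths (bip E)).ncard : ℝ) ≤
      (∑ y ∈ rgt b.B, (dg E (lft b.A) y : ℝ) * dg E (lft b.C) y) +
      ∑ y ∈ lft b.B, (dg (tr E) (rgt b.A) y : ℝ) * dg (tr E) (rgt b.C) y := by
    exact_mod_cast h
  calc ((b.paths (bip E)).ncard : ℝ) ≤ _ := h'
    _ ≤ 112 * (ℓ : ℝ) ^ 2 * mulCost ω #(lft b.A) #(rgt b.B) #(lft b.C) +
        112 * (ℓ : ℝ) ^ 2 * mulCost ω #(rgt b.A) #(lft b.B) #(rgt b.C) := add_le_add h1 h2
    _ ≤ 112 * (ℓ : ℝ) ^ 2 * b.cost ω + 112 * (ℓ : ℝ) ^ 2 * b.cost ω := by gcongr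
    _ = _ := by ring

end Bip

section Count

variable {V : Type} [Fintype V]

/-- The paths whose middle vertex comes first. -/
def lowPaths (G : SimpleGraph V) (r : V → ℕ) : Set (V × V × V) :=
  {p | (G.Adj p.1 p.2.1 ∧ G.Adj p.2.1 p.2.2 ∧ p.1 ≠ p.2.2) ∧ r p.2.1 < r p.1 ∧ r p.2.1 < r p.2.2}

theorem lowPaths_le {G : SimpleGraph V} {r : V → ℕ} {ι : Type} [Fintype ι] {b : ι → Box V}
    (h : Covers G r b) : (lowPaths G r).ncard ≤ ∑ i, ((b i).paths G).ncard := by
  classical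
  have hsub : lowPaths G r ⊆ ⋃ i ∈ (univ : Finset ι), (b i).paths G := by
    rintro ⟨x, y, z⟩ ⟨⟨hxy, hyz, hxz⟩, h1, h2⟩
    obtain ⟨i, hA, hB, hC⟩ := h x y z hxy hyz hxz h1 h2
    simp only [Set.mem_iUnion]
    exact ⟨i, mem_univ i, ⟨hxy, hyz, hxz⟩, hA, hB, hC⟩
  refine (Set.ncard_le_ncard hsub (Set.toFinite _)).trans ?_
  have key : ∀ s : Finset ι, (⋃ i ∈ s, (b i).paths G).ncard ≤ ∑ i ∈ s, ((b i).paths G).ncard := by
    intro s
    induction s using Finset.induction_on with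
    | empty => simp
    | insert a s ha ih =>
      rw [Finset.set_biUnion_insert, Finset.sum_insert ha]
      exact (Set.ncard_union_le _ _).trans (by gcongr)
  exact key univ

/-- The later neighbours. -/
noncomputable def later (G : SimpleGraph V) (r : V → ℕ) (y : V) : Finset V := by
  classical exact univ.filter (fun x => G.Adj y x ∧ r y < r x)

theorem mem_later {G : SimpleGraph V} {r : V → ℕ} {y x : V} :
    x ∈ later G r y ↔ G.Adj y x ∧ r y < r x := by
  simp [later]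

theorem sum_offDiag_le (G : SimpleGraph V) (r : V → ℕ) :
    ∑ y, (#(later G r y) * #(later G r y) - #(later G r y)) ≤ (lowPaths G r).ncard := by
  classical
  let F : Finset (Σ _ : V, V × V) := univ.sigma (fun y => (later G r y).offDiag)
  have h1 : #F = ∑ y, (#(later G r y) * #(later G r y) - #(later G r y)) := by
    rw [Finset.card_sigma]
    apply Finset.sum_congr rfl
    intro y _
    rw [Finset.offDiag_card]
  rw [← h1, ← Set.ncard_coe_finset]
  apply Set.ncard_le_ncard_of_injOn (fun s : (Σ _ : V, V × V) => (s.2.1, s.1, s.2.2))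
  · rintro ⟨y, x, z⟩ hs
    simp only [F, Finset.coe_sigma, Set.mem_sigma_iff, Finset.mem_coe, Finset.mem_offDiag,
      mem_later] at hs
    obtain ⟨-, ⟨hx, hx'⟩, ⟨hz, hz'⟩, hne⟩ := hs
    exact ⟨⟨hx.symm, hz, hne⟩, hx', hz'⟩
  · rintro ⟨y, x, z⟩ _ ⟨y', x', z'⟩ _ h
    simp only [Prod.mk.injEq] at h
    obtain ⟨rfl, rfl, rfl⟩ := h
    rfl

theorem lowPaths_ge (G : SimpleGraph V) (r : V → ℕ) {e n : ℝ} (hn : 0 < n)
    (hV : (Fintype.card V : ℝ) = 2 * n) (he : 4 * n ≤ e)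
    (hS : e ≤ ∑ y, (#(later G r y) : ℝ)) : e ^ 2 / (4 * n) ≤ (lowPaths G r).ncard := by
  set S : ℝ := ∑ y, (#(later G r y) : ℝ) with hSd
  have h1 : (∑ y, ((#(later G r y) : ℝ) * #(later G r y) - #(later G r y))) ≤
      (lowPaths G r).ncard := by
    have h := sum_offDiag_le G r
    have h' : ((∑ y, (#(later G r y) * #(later G r y) - #(later G r y)) : ℕ) : ℝ) ≤
        (lowPaths G r).ncard := by exact_mod_cast h
    refine le_trans (le_of_eq ?_) h'
    push_cast
    apply Finset.sum_congr rfl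
    intro y _
    rw [Nat.cast_sub (Nat.le_mul_self _)]
    push_cast
    rfl
  have h2 : S ^ 2 ≤ (2 * n) * ∑ y, ((#(later G r y) : ℝ) * #(later G r y)) := by
    have h := sq_sum_le_card_mul_sum_sq (s := (univ : Finset V))
      (f := fun y => (#(later G r y) : ℝ))
    rw [Finset.card_univ, hV] at h
    simpa [sq] using h
  rw [Finset.sum_sub_distrib] at h1
  have h3 : S ^ 2 / (2 * n) ≤ ∑ y, ((#(later G r y) : ℝ) * #(later G r y)) := by
    rw [div_le_iff₀ (by positivity)]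
    linarith
  have hSe : 4 * n ≤ S := he.trans hS
  have h4 : S ≤ S ^ 2 / (4 * n) := by
    rw [le_div_iff₀ (by positivity)]
    nlinarith
  have h5 : S ^ 2 / (2 * n) = S ^ 2 / (4 * n) + S ^ 2 / (4 * n) := by
    field_simp
    ring
  have h6 : e ^ 2 / (4 * n) ≤ S ^ 2 / (4 * n) := by
    have : 0 ≤ e := by linarith
    gcongr
  linarith

end Count

theorem later_sum_ge {n : ℕ} (E : Finset (Fin n × Fin n)) (r : Fin n ⊕ Fin n → ℕ)
    (hr : Function.Injective r) : #E ≤ ∑ y, #(later (bip E) r y) := by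
  classical
  have h : ∑ y, #(later (bip E) r y) =
      #((univ : Finset (Fin n ⊕ Fin n)).sigma (fun y => later (bip E) r y)) := by
    rw [Finset.card_sigma]
  rw [h]
  apply Finset.card_le_card_of_injOn (fun p : Fin n × Fin n =>
    if r (.inl p.1) < r (.inr p.2) then
      (⟨.inl p.1, .inr p.2⟩ : Σ _ : Fin n ⊕ Fin n, Fin n ⊕ Fin n)
    else ⟨.inr p.2, .inl p.1⟩)
  · rintro ⟨x, y⟩ hp
    have hp' : (x, y) ∈ E := hp
    dsimp only
    split_ifs with h1
    · simp only [Finset.coe_sigma, Set.mem_sigma_iff, Finset.mem_coe, mem_univ, mem_later,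
        true_and]
      exact ⟨bip_lr.mpr hp', h1⟩
    · simp only [Finset.coe_sigma, Set.mem_sigma_iff, Finset.mem_coe, mem_univ, mem_later,
        true_and]
      refine ⟨bip_rl.mpr hp', ?_⟩
      rcases lt_or_eq_of_le (not_lt.mp h1) with h2 | h2
      · exact h2
      · exact absurd (hr h2) (by simp)
  · rintro ⟨x, y⟩ _ ⟨x', y'⟩ _ h
    dsimp only at h
    split_ifs at h with h1 h2 h2 <;> simp_all

end Pool.Agent.H692.BX
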