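import Pool.Agent.H692.BX.Defs

/-!
# Triangle detection by boxes: the upper bound
-/

namespace Pool.Agent.H692.BX

open Finset

variable {V : Type}

theorem upper (ω : ℝ) (h2 : 2 ≤ ω) (h3 : ω ≤ 3) [Fintype V] (G : SimpleGraph V) :
    ∃ (r : V → ℕ) (ι : Type) (_ : Fintype ι) (b : ι → Box V), Function.Injective r ∧
      Covers G r b ∧
      ∑ i, (b i).cost ω ≤ 10 * (Nat.card G.edgeSet : ℝ) ^ (2 * ω / (ω + 1)) := by
  classical
  set m : ℝ := (Nat.card G.edgeSet : ℝ) with hm
  have hm0 : 0 ≤ m := by positivity
  set D : ℝ := m ^ ((ω - 1) / (ω + 1)) with hD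
  have hD0 : 0 ≤ D := by positivity
  let high : V → Prop := fun v => D < (G.degree v : ℝ)
  let e : V ≃ Fin (Fintype.card V) := Fintype.equivFin V
  let r : V → ℕ := fun v => (e v : ℕ) + if high v then Fintype.card V else 0
  let H : Finset V := univ.filter high
  let b : Option V → Box V := fun o => match o with
    | none => ⟨H, H, H⟩
    | some y => if high y then ⟨∅, ∅, ∅⟩ else ⟨G.neighborFinset y, {y}, G.neighborFinset y⟩
  refine ⟨r, Option V, inferInstance, b, ?_, ?_, ?_⟩
  · intro u v huv
    have hu := (e u).2
    have hv := (e v).2
    simp only [r] at huv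
    apply e.injective
    apply Fin.ext
    split_ifs at huv <;> omega
  · intro x y z hxy hyz hxz hyx hyz'
    by_cases hy : high y
    · have hx : high x := by
        by_contra hx
        have := (e x).2
        simp only [r, if_pos hy, if_neg hx] at hyx
        omega
      have hz : high z := by
        by_contra hz
        have := (e z).2
        simp only [r, if_pos hy, if_neg hz] at hyz'
        omega
      refine ⟨none, ?_, ?_, ?_⟩ <;> simpa [b, H]
    · refine ⟨some y, ?_, ?_, ?_⟩
      · simp only [b, if_neg hy]
        simpa using hxy.symm
      · simp only [b, if_neg hy]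
        simp
      · simp only [b, if_neg hy]
        simpa using hyz
  · have hdeg : (∑ v, (G.degree v : ℝ)) = 2 * m := by
      have := G.sum_degrees_eq_twice_card_edges
      have h2 : (#G.edgeFinset : ℝ) = m := by
        rw [hm, Nat.card_eq_fintype_card, ← SimpleGraph.edgeFinset_card]
      rw [← h2]
      exact_mod_cast this
    have hsome : ∀ y : V, (b (some y)).cost ω ≤ D * (G.degree y : ℝ) := by
      intro y
      by_cases hy : high y
      · simp only [b, if_pos hy, Box.cost, mulCost]
        have : ((0 : ℝ)) ^ (ω / 3) = 0 := Real.zero_rpow (by linarith)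
        simp [this]
        positivity
      · simp only [b, if_neg hy, Box.cost, mulCost, SimpleGraph.card_neighborFinset_eq_degree,
          card_singleton, Nat.cast_one, mul_one, one_mul]
        have hd : (G.degree y : ℝ) ≤ D := not_lt.mp hy
        rcases Nat.eq_zero_or_pos (G.degree y) with h0 | hpos
        · rw [h0]
          have : ((0 : ℝ)) ^ (ω / 3) = 0 := Real.zero_rpow (by linarith)
          simp [this]
        · have h1 : (1 : ℝ) ≤ G.degree y := by exact_mod_cast hpos
          have hsq : (G.degree y : ℝ) * G.degree y ≤ D * G.degree y := by gcongr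
          have hle : (G.degree y : ℝ) ≤ (G.degree y : ℝ) * G.degree y := by nlinarith
          refine max_le ?_ (max_le (hle.trans hsq) (max_le (hle.trans hsq) hsq))
          calc ((G.degree y : ℝ) * G.degree y) ^ (ω / 3)
              ≤ ((G.degree y : ℝ) * G.degree y) ^ (1 : ℝ) := by
                apply Real.rpow_le_rpow_of_exponent_le (by nlinarith) (by linarith)
            _ = (G.degree y : ℝ) * G.degree y := Real.rpow_one _
            _ ≤ _ := hsq
    have hω1 : 0 < ω + 1 := by linarith
    rcases hm0.eq_or_lt with hz | hpos
    · -- no edges
      have hdz : ∀ v, (G.degree v : ℝ) = 0 := by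
        intro v
        have h := hdeg
        rw [← hz, mul_zero] at h
        have := (Finset.sum_eq_zero_iff_of_nonneg (fun v _ => by positivity)).mp h v (mem_univ v)
        exact this
      have hDz : D = 0 := by
        rw [hD, ← hz]
        apply Real.zero_rpow
        apply ne_of_gt
        apply div_pos <;> linarith
      have hH : H = ∅ := by
        apply Finset.filter_false_of_mem
        intro v _ hv
        simp only [high, hDz, hdz v] at hv
        exact lt_irrefl _ hv
      rw [← hz, Real.zero_rpow (by positivity)]
      rw [Fintype.sum_option]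
      have hnone : (b none).cost ω = 0 := by
        simp only [b, Box.cost, mulCost, hH, card_empty, Nat.cast_zero, mul_zero]
        rw [Real.zero_rpow (by positivity)]
        simp
      rw [hnone]
      have : ∑ y : V, (b (some y)).cost ω ≤ ∑ y : V, D * (G.degree y : ℝ) :=
        Finset.sum_le_sum (fun y _ => hsome y)
      rw [hDz] at this
      simpa using this
    · have hHcard : (#H : ℝ) ≤ 2 * m ^ (2 / (ω + 1)) := by
        have h1 : (#H : ℝ) * D ≤ 2 * m := by
          calc (#H : ℝ) * D = ∑ v ∈ H, D := by simp
            _ ≤ ∑ v ∈ H, (G.degree v : ℝ) := by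
                apply Finset.sum_le_sum
                intro v hv
                exact (Finset.mem_filter.mp hv).2.le
            _ ≤ ∑ v, (G.degree v : ℝ) := by
                apply Finset.sum_le_univ_sum_of_nonneg
                intro v; positivity
            _ = 2 * m := hdeg
        have hDpos : 0 < D := Real.rpow_pos_of_pos hpos _
        have h2' : m = m ^ (2 / (ω + 1)) * D := by
          rw [hD, ← Real.rpow_add hpos]
          have : 2 / (ω + 1) + (ω - 1) / (ω + 1) = 1 := by field_simp; ring
          rw [this, Real.rpow_one]
        by_contra hcon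
        push Not at hcon
        have : 2 * m < #H * D := by
          calc 2 * m = 2 * (m ^ (2 / (ω + 1)) * D) := by rw [← h2']
            _ = (2 * m ^ (2 / (ω + 1))) * D := by ring
            _ < #H * D := by gcongr
        linarith
      have hnone : (b none).cost ω ≤ 8 * m ^ (2 * ω / (ω + 1)) := by
        rcases Nat.eq_zero_or_pos #H with h0 | hHpos
        · simp only [b, Box.cost, mulCost, h0, Nat.cast_zero, mul_zero]
          rw [Real.zero_rpow (by positivity)]
          simp only [max_self]
          positivity
        · have hH1 : (1 : ℝ) ≤ #H := by exact_mod_cast hHpos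
          have hcube : ((#H : ℝ) * #H * #H) ^ (ω / 3) = (#H : ℝ) ^ ω := by
            rw [show (#H : ℝ) * #H * #H = (#H : ℝ) ^ (3 : ℝ) by
              rw [show (3 : ℝ) = ((3 : ℕ) : ℝ) by norm_num, Real.rpow_natCast]; ring]
            rw [← Real.rpow_mul (by positivity)]
            congr 1
            ring
          have hsq : (#H : ℝ) * #H ≤ (#H : ℝ) ^ ω := by
            calc (#H : ℝ) * #H = (#H : ℝ) ^ (2 : ℝ) := by
                  rw [show (2 : ℝ) = ((2 : ℕ) : ℝ) by norm_num, Real.rpow_natCast]; ring
              _ ≤ _ := Real.rpow_le_rpow_of_exponent_le hH1 h2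
          have hmain : (#H : ℝ) ^ ω ≤ 8 * m ^ (2 * ω / (ω + 1)) := by
            calc (#H : ℝ) ^ ω ≤ (2 * m ^ (2 / (ω + 1))) ^ ω := by
                  apply Real.rpow_le_rpow (by positivity) hHcard (by linarith)
              _ = 2 ^ ω * m ^ (2 * ω / (ω + 1)) := by
                  rw [Real.mul_rpow (by norm_num) (by positivity), ← Real.rpow_mul hm0]
                  congr 2
                  ring
              _ ≤ 8 * m ^ (2 * ω / (ω + 1)) := by
                  gcongr
                  calc (2 : ℝ) ^ ω ≤ 2 ^ (3 : ℝ) :=
                        Real.rpow_le_rpow_of_exponent_le (by norm_num) h3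
                    _ = 8 := by
                        rw [show (3 : ℝ) = ((3 : ℕ) : ℝ) by norm_num, Real.rpow_natCast]
                        norm_num
          simp only [b, Box.cost, mulCost]
          rw [hcube]
          exact (max_le le_rfl (max_le hsq (max_le hsq hsq))).trans hmain
      rw [Fintype.sum_option]
      have hsum : ∑ y : V, (b (some y)).cost ω ≤ 2 * m ^ (2 * ω / (ω + 1)) := by
        calc ∑ y : V, (b (some y)).cost ω ≤ ∑ y : V, D * (G.degree y : ℝ) :=
              Finset.sum_le_sum (fun y _ => hsome y)
          _ = D * (2 * m) := by rw [← Finset.mul_sum, hdeg]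
          _ = 2 * m ^ (2 * ω / (ω + 1)) := by
              have : m ^ (2 * ω / (ω + 1)) = D * m := by
                rw [hD]
                nth_rewrite 3 [← Real.rpow_one m]
                rw [← Real.rpow_add hpos]
                congr 1
                field_simp
                ring
              rw [this]; ring
      linarith

end Pool.Agent.H692.BX
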